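import Pool.Agent.W424.FR.Defs

set_option autoImplicit false

/-! Tasks OP and EV of project FR. -/

namespace Pool.Agent.W45.FR

open Pool.Agent.W424.FR

/-- the distance of a path and an initial part of a path is attained -/
theorem min_distI (g f : C(unitInterval, ℂ)) (t : unitInterval) :
    ∃ u0 s0, s0 ≤ t ∧ ∀ s, s ≤ t → ∀ u, dist (g u0) (f s0) ≤ dist (g u) (f s) := by
  have hc : Continuous (fun p : unitInterval × unitInterval => dist (g p.1) (f p.2)) := by
    fun_prop
  have hK : IsCompact ((Set.univ : Set unitInterval) ×ˢ Set.Iic t) :=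
    isCompact_univ.prod isClosed_Iic.isCompact
  obtain ⟨p, hp1, hp⟩ := hK.exists_isMinOn ⟨(t, t), by simp⟩ hc.continuousOn
  refine ⟨p.1, p.2, hp1.2, fun s hs u => ?_⟩
  exact hp (show (u, s) ∈ (Set.univ : Set unitInterval) ×ˢ Set.Iic t from ⟨trivial, hs⟩)

theorem t_OP : S_OP := by
  intro z r ρ ζ
  rw [Metric.isOpen_iff]
  rintro f ⟨t, ⟨s, hst, h1⟩, h2, g, g0, g1, hg⟩
  obtain ⟨u0, s0, hs0, hmin⟩ := min_distI g f t
  have h3 := hg s0 hs0 u0
  set ε : ℝ := min (min (r - dist (f s) z) (dist (f t) z - ρ))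
    (dist (g u0) (f s0) - ζ) with hε
  have hpos : 0 < ε :=
    lt_min (lt_min (by linarith) (by linarith)) (by linarith)
  have e1 : ε ≤ r - dist (f s) z := (min_le_left _ _).trans (min_le_left _ _)
  have e2 : ε ≤ dist (f t) z - ρ := (min_le_left _ _).trans (min_le_right _ _)
  have e3 : ε ≤ dist (g u0) (f s0) - ζ := min_le_right _ _
  refine ⟨ε, hpos, fun f' hf' => ?_⟩
  rw [Metric.mem_ball] at hf'
  have key : ∀ x : unitInterval, dist (f' x) (f x) < ε := fun x =>
    lt_of_le_of_lt (ContinuousMap.dist_apply_le_dist x) hf'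
  refine ⟨t, ⟨s, hst, ?_⟩, ?_, g, g0, g1, fun x hx u => ?_⟩
  · have h3 := dist_triangle (f' s) (f s) z
    have h4 := key s
    linarith
  · have h3 := dist_triangle_left (f t) z (f' t)
    have h4 := key t
    linarith
  · have h4 := key x
    have h5 := hmin x hx u
    have h6 := dist_triangle (g u) (f' x) (f x)
    linarith

theorem t_EV : S_EV := by
  intro f w t y η hη hy hyw hw z r ρ hwz hρ
  set K : Set ℂ := f '' Set.Iic t with hK
  have hcl : IsClosed K := (isClosed_Iic.isCompact.image f.continuous).isClosed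
  have hyK : y ∈ Kᶜ := hy
  have hopen : IsOpen (connectedComponentIn Kᶜ y) := hcl.isOpen_compl.connectedComponentIn
  have hw1 : w ∈ closure (connectedComponentIn Kᶜ y) := frontier_subset_closure hw
  have hwU : w ∉ connectedComponentIn Kᶜ y := by
    intro h
    rw [hopen.frontier_eq] at hw
    exact hw.2 h
  have hwK : w ∈ K := by
    by_contra hcon
    obtain ⟨ε, hε, hball⟩ := Metric.isOpen_iff.1 hcl.isOpen_compl w hcon
    rw [mem_closure_iff] at hw1
    obtain ⟨y', h1, h2⟩ := hw1 (Metric.ball w ε) Metric.isOpen_ball (Metric.mem_ball_self hε)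
    have h3 : Metric.ball w ε ⊆ connectedComponentIn Kᶜ y' :=
      (convex_ball w ε).isPreconnected.subset_connectedComponentIn h1 hball
    rw [← connectedComponentIn_eq h2] at h3
    exact hwU (h3 (Metric.mem_ball_self hε))
  obtain ⟨s, hs, hsw⟩ := hwK
  rw [mem_closure_iff] at hw1
  obtain ⟨y', hy1, hy2⟩ := hw1 (Metric.ball z r) Metric.isOpen_ball (Metric.mem_ball.2 hwz)
  have hconn : IsConnected (connectedComponentIn Kᶜ y) :=
    isConnected_connectedComponentIn_iff.2 hyK
  have hpc := (hopen.isConnected_iff_isPathConnected).1 hconn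
  obtain ⟨γ, hγ⟩ := hpc.joinedIn y' hy2 y (mem_connectedComponentIn hyK)
  obtain ⟨u0, s0, hs0, hmin⟩ := min_distI γ.toContinuousMap f t
  have hpos : 0 < dist (γ.toContinuousMap u0) (f s0) := by
    rw [dist_pos]
    intro h
    exact connectedComponentIn_subset _ _ (hγ u0) ⟨s0, hs0, h.symm⟩
  obtain ⟨j, hj⟩ := exists_nat_one_div_lt hpos
  refine ⟨j, t, ⟨s, hs, by rw [hsw]; exact hwz⟩, ?_, γ.toContinuousMap, ?_, ?_, ?_⟩
  · have h6 := dist_triangle (f t) z w
    rw [dist_comm z w] at h6
    linarith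
  · have : γ.toContinuousMap 0 = y' := γ.source
    rw [this]
    exact Metric.mem_ball.1 hy1
  · have : γ.toContinuousMap 1 = y := γ.target
    rw [this]
    have h6 := dist_triangle y z w
    rw [dist_comm z w] at h6
    linarith
  · intro x hx u
    exact lt_of_lt_of_le hj (hmin x hx u)

end Pool.Agent.W45.FR
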